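import Pool.Agent.H23.K9.Ev

/-!
# The certificate checker
-/

namespace Pool.Agent.H23.K9

/-- hash of the lowest set bit of m -/
def lowh (m : Nat) : Nat := Nat.mod (Nat.xor m (Nat.land m (Nat.sub m (nat_lit 1)))) (nat_lit 197)

/-- reduce v by the equations in ctx, at most n steps -/
noncomputable def redN (ctx piv n : Nat) : Nat → Nat :=
  Nat.rec (motive := fun _ => Nat → Nat) (fun v => v)
    (fun _ ih v => (fun m => Bool.rec (ih (Nat.xor v (slot ctx (lowh m)))) v (Nat.beq m (nat_lit 0))) (Nat.land v piv)) n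

/-- reduce v by the equations in ctx -/
noncomputable def red (ctx piv v : Nat) : Nat := redN ctx piv (nat_lit 192) v

/-- sum of the rows of the triangles in the list -/
noncomputable def rowsXor (ws : Nat) (l : List (Nat × Nat × Nat)) : Nat :=
  List.rec (motive := fun _ => Nat) (nat_lit 0) (fun t _ ih => Nat.xor (rowOf (key ws t)) ih) l

/-- sum of the entries of the row at the triangles in the list -/
noncomputable def faceVec (ws row : Nat) (l : List (Nat × Nat × Nat)) : Nat :=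
  List.rec (motive := fun _ => Nat) (nat_lit 0) (fun t _ ih => Nat.xor (slot row (key ws t)) ih) l

/-- stack of postponed branches: context and the equation to be added -/
inductive Stack where
  | nil : Stack
  | cons (ctx piv v : Nat) (s : Stack) : Stack

/-- state of the checker: failure, contradiction reached in all branches, or current state -/
inductive Res where
  | fail : Res
  | done : Res
  | st (ctx piv : Nat) (s : Stack) : Res

/-- add the reduced equation r = 0 -/
def addEq (ctx piv r : Nat) (s : Stack) : Res :=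
  (fun p => Res.st (Nat.xor ctx (Nat.shiftLeft (Nat.mod r M192) (Nat.mul (nat_lit 192) (Nat.mod p (nat_lit 197))))) (Nat.lor piv p) s)
    (Nat.xor r (Nat.land r (Nat.sub r (nat_lit 1))))

/-- add the equation v = 0; on contradiction pop the stack -/
noncomputable def pushPop (s : Stack) : Nat → Nat → Nat → Res :=
  Stack.rec (motive := fun _ => Nat → Nat → Nat → Res)
    (fun ctx piv v => (fun r => Bool.rec (Bool.rec (addEq ctx piv r Stack.nil) Res.done (Nat.beq r ONE))
      (Res.st ctx piv Stack.nil) (Nat.beq r (nat_lit 0))) (red ctx piv v))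
    (fun c p w s' ih ctx piv v => (fun r => Bool.rec (Bool.rec (addEq ctx piv r (Stack.cons c p w s')) (ih c p w) (Nat.beq r ONE))
      (Res.st ctx piv (Stack.cons c p w s')) (Nat.beq r (nat_lit 0))) (red ctx piv v)) s

/-- all vectors in the list have value 1 in the context -/
noncomputable def allOne (ctx piv : Nat) (l : List Nat) : Bool :=
  List.rec (motive := fun _ => Bool) true (fun v _ ih => Bool.rec false ih (Nat.beq (red ctx piv v) ONE)) l

/-- remove the n-th element -/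
def eraseNth {α : Type} : List α → Nat → List α
  | [], _ => []
  | _ :: l, 0 => l
  | a :: l, n + 1 => a :: eraseNth l n

/-- a pattern: list of pairs of disjoint triangles in standard labels -/
abbrev Pat : Type := List ((Nat × Nat × Nat) × (Nat × Nat × Nat))

/-- the vectors of the pairs of a pattern -/
noncomputable def patVecs (ws : Nat) (l : Pat) : List Nat :=
  List.rec (motive := fun _ => List Nat) [] (fun p _ ih => slot (rowOf (key ws p.1)) (key ws p.2) :: ih) l

/-- field of the command -/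
def fld (c i n : Nat) : Nat := Nat.mod (Nat.shiftRight c i) n

/-- a clause: a odd, b odd => l even (linking numbers with C) -/
structure Kind where
  C : List (Nat × Nat × Nat)
  a : List (Nat × Nat × Nat)
  b : List (Nat × Nat × Nat)
  l : List (Nat × Nat × Nat)

/-- the 24 clauses -/
def kindTree : Tr Kind :=
  (Tr.node (nat_lit 11) (Tr.node (nat_lit 5) (Tr.node (nat_lit 2) (Tr.node (nat_lit 0) (Tr.leaf (Kind.mk [(0,1,2)] [(4,5,6)] [(3,5,6)] [(3,4,6)]))
    (Tr.node (nat_lit 1) (Tr.leaf (Kind.mk [(0,1,2)] [(4,5,6)] [(3,5,6)] [(3,7,4),(3,4,6)]))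
    (Tr.leaf (Kind.mk [(0,1,2)] [(4,5,6)] [(3,7,4),(3,4,6)] [(3,5,6)]))))
    (Tr.node (nat_lit 3) (Tr.leaf (Kind.mk [(0,1,2)] [(4,5,6)] [(3,7,4),(3,4,6)] [(3,7,4),(3,4,5)]))
    (Tr.node (nat_lit 4) (Tr.leaf (Kind.mk [(0,1,2)] [(3,7,4),(3,4,6)] [(3,7,4),(3,4,5)] [(4,5,6)]))
    (Tr.leaf (Kind.mk [(0,1,2)] [(4,5,6)] [(3,5,6)] [(3,7,8),(3,8,4),(3,4,6)])))))
    (Tr.node (nat_lit 8) (Tr.node (nat_lit 6) (Tr.leaf (Kind.mk [(0,1,2)] [(4,5,6)] [(3,7,8),(3,8,4),(3,4,6)] [(3,5,6)]))
    (Tr.node (nat_lit 7) (Tr.leaf (Kind.mk [(0,1,2)] [(4,5,6)] [(3,7,8),(3,8,4),(3,4,6)] [(3,7,8),(3,8,4),(3,4,5)]))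
    (Tr.leaf (Kind.mk [(0,1,2)] [(3,7,8),(3,8,4),(3,4,6)] [(3,7,8),(3,8,4),(3,4,5)] [(4,5,6)]))))
    (Tr.node (nat_lit 9) (Tr.leaf (Kind.mk [(0,1,2)] [(4,5,6)] [(3,8,5),(3,5,6)] [(3,7,4),(3,4,6)]))
    (Tr.node (nat_lit 10) (Tr.leaf (Kind.mk [(0,1,2)] [(4,5,6)] [(3,8,5),(3,5,6)] [(3,7,4),(3,4,5),(3,5,8)]))
    (Tr.leaf (Kind.mk [(0,1,2)] [(4,5,6)] [(3,7,4),(3,4,5),(3,5,8)] [(3,8,5),(3,5,6)]))))))
    (Tr.node (nat_lit 17) (Tr.node (nat_lit 14) (Tr.node (nat_lit 12) (Tr.leaf (Kind.mk [(0,1,2)] [(3,8,5),(3,5,6)] [(3,7,4),(3,4,6)] [(4,5,6)]))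
    (Tr.node (nat_lit 13) (Tr.leaf (Kind.mk [(0,1,2)] [(3,8,5),(3,5,6)] [(3,7,4),(3,4,6)] [(3,7,4),(3,4,5),(3,5,8)]))
    (Tr.leaf (Kind.mk [(0,1,2)] [(3,8,5),(3,5,6)] [(3,7,4),(3,4,5),(3,5,8)] [(4,5,6)]))))
    (Tr.node (nat_lit 15) (Tr.leaf (Kind.mk [(0,1,2)] [(3,8,5),(3,5,6)] [(3,7,4),(3,4,5),(3,5,8)] [(3,7,4),(3,4,6)]))
    (Tr.node (nat_lit 16) (Tr.leaf (Kind.mk [(0,1,2)] [(4,5,8),(4,8,6)] [(3,5,8),(3,8,6)] [(3,7,4),(3,4,6)]))
    (Tr.leaf (Kind.mk [(0,1,2)] [(4,5,8),(4,8,6)] [(3,7,4),(3,4,6)] [(3,5,8),(3,8,6)])))))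
    (Tr.node (nat_lit 20) (Tr.node (nat_lit 18) (Tr.leaf (Kind.mk [(0,1,2),(0,2,3)] [(5,6,7)] [(4,6,7)] [(4,5,7)]))
    (Tr.node (nat_lit 19) (Tr.leaf (Kind.mk [(0,1,2),(0,2,3)] [(5,6,7)] [(4,6,7)] [(4,8,5),(4,5,7)]))
    (Tr.leaf (Kind.mk [(0,1,2),(0,2,3)] [(5,6,7)] [(4,8,5),(4,5,7)] [(4,6,7)]))))
    (Tr.node (nat_lit 21) (Tr.leaf (Kind.mk [(0,1,2),(0,2,3)] [(5,6,7)] [(4,8,5),(4,5,7)] [(4,8,5),(4,5,6)]))
    (Tr.node (nat_lit 22) (Tr.leaf (Kind.mk [(0,1,2),(0,2,3)] [(4,8,5),(4,5,7)] [(4,8,5),(4,5,6)] [(5,6,7)]))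
    (Tr.leaf (Kind.mk [(0,1,2),(0,2,3),(0,3,4)] [(6,7,8)] [(5,7,8)] [(5,6,8)])))))))


/-- check the premises of a clause and add the conclusion -/
noncomputable def stepD3 (ctx piv : Nat) (s : Stack) (a b v : Nat) : Res :=
  Bool.rec Res.fail (Bool.rec Res.fail (pushPop s ctx piv v) (Nat.beq (red ctx piv b) ONE)) (Nat.beq (red ctx piv a) ONE)

noncomputable def stepD2 (ctx piv : Nat) (s : Stack) (ws row : Nat) (a b l : List (Nat × Nat × Nat)) : Res :=
  stepD3 ctx piv s (faceVec ws row a) (faceVec ws row b) (faceVec ws row l)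

noncomputable def stepD1 (ctx piv : Nat) (s : Stack) (ws : Nat) (t : Kind) : Res :=
  Kind.rec (motive := fun _ => Res) (fun C a b l => stepD2 ctx piv s ws (rowsXor ws C) a b l) t

/-- apply a lemma: all but the i-th vector have value 1, hence the i-th has value 0 -/
noncomputable def stepL2 (ctx piv : Nat) (s : Stack) (vs : List Nat) (i : Nat) : Res :=
  Bool.rec Res.fail (Bool.rec Res.fail (pushPop s ctx piv (nth 0 vs i)) (allOne ctx piv (eraseNth vs i))) (Nat.blt i vs.length)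

noncomputable def stepL1 (pats : List Pat) (ctx piv : Nat) (s : Stack) (c ws : Nat) : Res :=
  stepL2 ctx piv s (patVecs ws (nth [] pats (fld c (nat_lit 2) (nat_lit 16)))) (fld c (nat_lit 6) (nat_lit 16))

/-- case distinction -/
noncomputable def stepA1 (ctx piv : Nat) (s : Stack) (c v : Nat) : Res :=
  Bool.rec (pushPop (Stack.cons ctx piv (Nat.xor v ONE) s) ctx piv v)
   (pushPop (Stack.cons ctx piv v s) ctx piv (Nat.xor v ONE)) (Nat.beq (fld c (nat_lit 2) (nat_lit 2)) (nat_lit 1))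

/-- one command -/
noncomputable def step (pats : List Pat) (ctx piv : Nat) (s : Stack) (c ws : Nat) : Res :=
  Bool.rec Res.fail
    (Bool.rec
      (Bool.rec
        (Bool.rec Res.fail
          (stepA1 ctx piv s c (slot (rowOf (key ws (0,1,2))) (key ws (3,4,5))))
          (Nat.beq (Nat.mod c (nat_lit 4)) (nat_lit 2)))
        (stepL1 pats ctx piv s c ws)
        (Nat.beq (Nat.mod c (nat_lit 4)) (nat_lit 1)))
      (stepD1 ctx piv s ws (kindTree.look (fld c (nat_lit 2) (nat_lit 32))))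
      (Nat.beq (Nat.mod c (nat_lit 4)) (nat_lit 0)))
    (okPerm ws)

/-- the checker -/
noncomputable def run (pats : List Pat) (cs : List Nat) (r : Res) : Bool :=
  List.rec (motive := fun _ => Res → Bool)
    (fun r => Res.rec (motive := fun _ => Bool) false true (fun _ _ _ => false) r)
    (fun c _ ih r => Res.rec (motive := fun _ => Bool) false true
      (fun ctx piv s => ih (step pats ctx piv s c (Nat.shiftRight c (nat_lit 16)))) r) cs r

/-- add the given equations to the context -/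
noncomputable def startL (l : List Nat) (r : Res) : Res :=
  List.rec (motive := fun _ => Res → Res) (fun r => r)
    (fun v _ ih r => Res.rec (motive := fun _ => Res) Res.fail Res.done
      (fun ctx piv s => ih (pushPop s ctx piv v)) r) l r

/-- packed weights of the identity permutation -/
def WT : Nat := 1460470368258469724928

/-- the assumptions: all pairs of the pattern have value 1 -/
noncomputable def initVecs (P : Pat) : List Nat :=
  List.rec (motive := fun _ => List Nat) []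
    (fun p _ ih => Nat.xor (slot (rowOf (key WT p.1)) (key WT p.2)) ONE :: ih) P

/-- the certificate `cs` refutes the pattern `P` using the lemmas `pats` -/
noncomputable def refutes (pats : List Pat) (P : Pat) (cs : List Nat) : Bool :=
  run pats cs (startL (initVecs P) (Res.st 0 0 Stack.nil))

end Pool.Agent.H23.K9
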