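import Mathlib

/-!
# Spatial embeddings of graphs, linking numbers, strong intrinsic linking

Definitions used in the statement that `K_9` is strongly intrinsically linked.
-/

namespace Pool.Agent.H23.K9

/-- Euclidean 3-space. -/
abbrev E3 : Type := EuclideanSpace ℝ (Fin 3)

variable {V : Type}

/-- A cycle of a simple graph: `len ≥ 3` distinct vertices in cyclic order, consecutive ones
adjacent. -/
structure GCycle (G : SimpleGraph V) where
  /-- the length of the cycle -/
  len : ℕ
  three_le : 3 ≤ len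
  /-- the vertices in cyclic order -/
  vert : ZMod len → V
  inj : Function.Injective vert
  adj : ∀ i, G.Adj (vert i) (vert (i + 1))

/-- A spatial embedding of a simple graph: distinct points `pos v` for the vertices and, for every
edge `uv`, an arc `arc u v`, parametrised by `[0,1]`, from `pos u` to `pos v` (with `arc v u` the
reversed arc); each arc is a continuous injective map, contains no further vertex, and two different
arcs meet only in images of common endpoints. -/
structure SpatialEmbedding (G : SimpleGraph V) where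
  pos : V → E3
  arc : V → V → ℝ → E3
  pos_injective : Function.Injective pos
  arc_zero : ∀ u v, G.Adj u v → arc u v 0 = pos u
  arc_one : ∀ u v, G.Adj u v → arc u v 1 = pos v
  arc_symm : ∀ u v, G.Adj u v → ∀ t ∈ Set.Icc (0 : ℝ) 1, arc v u t = arc u v (1 - t)
  arc_continuousOn : ∀ u v, G.Adj u v → ContinuousOn (arc u v) (Set.Icc 0 1)
  arc_injOn : ∀ u v, G.Adj u v → Set.InjOn (arc u v) (Set.Icc 0 1)
  arc_ne_pos : ∀ u v w, G.Adj u v → w ≠ u → w ≠ v → ∀ t ∈ Set.Icc (0 : ℝ) 1, arc u v t ≠ pos w
  arc_inter : ∀ u v u' v', G.Adj u v → G.Adj u' v' → s(u, v) ≠ s(u', v') →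
    ∀ s ∈ Set.Icc (0 : ℝ) 1, ∀ t ∈ Set.Icc (0 : ℝ) 1, arc u v s = arc u' v' t →
      ∃ w, (w = u ∨ w = v) ∧ (w = u' ∨ w = v') ∧ arc u v s = pos w

/-- The closed curve which is the image of a cycle, parametrised with period `C.len`: on
`[i, i+1]` it runs along the arc from the `i`-th to the `(i+1)`-st vertex of the cycle. -/
noncomputable def SpatialEmbedding.curve {G : SimpleGraph V} (f : SpatialEmbedding G)
    (C : GCycle G) : ℝ → E3 := fun t =>
  f.arc (C.vert ((⌊t⌋ : ℤ) : ZMod C.len)) (C.vert (((⌊t⌋ : ℤ) : ZMod C.len) + 1)) (Int.fract t)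

/-- Orientation determinant of three points projected to the `xy`-plane. -/
def planarDet (a b c : E3) : ℝ := (b 0 - a 0) * (c 1 - a 1) - (b 1 - a 1) * (c 0 - a 0)

/-- Orientation determinant `det (b - a, c - a, d - a)` of four points of space. -/
def spaceDet (a b c d : E3) : ℝ :=
  (b 0 - a 0) * ((c 1 - a 1) * (d 2 - a 2) - (c 2 - a 2) * (d 1 - a 1))
  - (b 1 - a 1) * ((c 0 - a 0) * (d 2 - a 2) - (c 2 - a 2) * (d 0 - a 0))
  + (b 2 - a 2) * ((c 0 - a 0) * (d 1 - a 1) - (c 1 - a 1) * (d 0 - a 0))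

open Classical in
/-- The sign of the crossing of the oriented segments `ab` and `cd` in the diagram obtained by
projecting to the `xy`-plane; it is `0` if the projected segments do not cross. -/
noncomputable def crossSign (a b c d : E3) : ℤ :=
  if planarDet a b c * planarDet a b d < 0 ∧ planarDet c d a * planarDet c d b < 0 then
    (SignType.sign (spaceDet a b c d) : ℤ) else 0

/-- The closed polygon with vertices `p 0, p 1, …, p m = p 0` follows the closed curve `γ`
(parametrised by `[0, L]`) within `ε`: for suitable times `0 = τ 0 ≤ τ 1 ≤ … ≤ τ m = L` the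
points `p i` and `p (i+1)` (hence the whole edge joining them) lie in the open `ε`-ball around
`γ t` for all `t ∈ [τ i, τ (i+1)]`. -/
structure Follows (γ : ℝ → E3) (L ε : ℝ) (m : ℕ) (p : ℕ → E3) (τ : ℕ → ℝ) : Prop where
  closed : p m = p 0
  start : τ 0 = 0
  finish : τ m = L
  mono : ∀ i < m, τ i ≤ τ (i + 1)
  near : ∀ i < m, ∀ t ∈ Set.Icc (τ i) (τ (i + 1)), dist (γ t) (p i) < ε ∧ dist (γ t) (p (i + 1)) < ε

/-- `n` is the linking number of the disjoint closed curves `γ₁` (on `[0, L₁]`) and `γ₂`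
(on `[0, L₂]`): there are `ε > 0` with `2 ε ≤ dist (γ₁, γ₂)` and closed polygons following the two
curves within `ε`, in general position with respect to each other and to the projection to the
`xy`-plane, for which half the sum of the signs of all crossings between the two polygons is `n`. -/
def IsLinkingNumber (γ₁ : ℝ → E3) (L₁ : ℝ) (γ₂ : ℝ → E3) (L₂ : ℝ) (n : ℤ) : Prop :=
  ∃ ε > 0, (∀ s ∈ Set.Icc 0 L₁, ∀ t ∈ Set.Icc 0 L₂, 2 * ε ≤ dist (γ₁ s) (γ₂ t)) ∧
    ∃ (m₁ : ℕ) (p : ℕ → E3) (τ₁ : ℕ → ℝ) (m₂ : ℕ) (q : ℕ → E3) (τ₂ : ℕ → ℝ),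
      Follows γ₁ L₁ ε m₁ p τ₁ ∧ Follows γ₂ L₂ ε m₂ q τ₂ ∧
      (∀ i < m₁, ∀ j < m₂, planarDet (p i) (p (i + 1)) (q j) ≠ 0 ∧
        planarDet (q j) (q (j + 1)) (p i) ≠ 0 ∧
        spaceDet (p i) (p (i + 1)) (q j) (q (j + 1)) ≠ 0) ∧
      2 * n = ∑ i ∈ Finset.range m₁, ∑ j ∈ Finset.range m₂,
        crossSign (p i) (p (i + 1)) (q j) (q (j + 1))

/-- A graph is strongly intrinsically linked if every spatial embedding contains two
vertex-disjoint cycles whose images have linking number of absolute value at least `2`. -/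
def StronglyIntrinsicallyLinked (G : SimpleGraph V) : Prop :=
  ∀ f : SpatialEmbedding G, ∃ C D : GCycle G, (∀ i j, C.vert i ≠ D.vert j) ∧
    ∃ n : ℤ, 2 ≤ |n| ∧ IsLinkingNumber (f.curve C) C.len (f.curve D) D.len n

end Pool.Agent.H23.K9
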