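import Pool.Agent.H23.K9.Interface

/-!
# Interface between the semantic part and the kernel-checked certificate (JOB C)

`par m a b c d e f` is the parity of the linking number of the triangles `abc`, `def`.
`ParSys x` collects the facts about these parities that the certificate uses.
-/

namespace Pool.Agent.H23.K9

/-- parity of the linking number of the disjoint triangles `abc` and `def` -/
def par (m : Fin 9 → Fin 9 → Fin 9 → Fin 9 → ℤ) (a b c d e f : Fin 9) : Bool :=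
  decide (triSum m a b c d e f % 4 = 2)

/-- the labels `0, …, 8` are mapped to distinct vertices -/
def Inj9 (v : ℕ → Fin 9) : Prop := ∀ a < 9, ∀ b < 9, v a = v b → a = b

/-- The eight types of configurations (cycle `C`, subdivided `K_4` disjoint from it) in standard
labels: the cycle and the four face cycles, each given as a fan of triangles from its first vertex.
Type 0: C = 012,   faces 456, 356, 346, 345
Type 1: C = 012,   faces 456, 356, 3746, 3745                (edge 34 subdivided by 7)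
Type 2: C = 012,   faces 456, 356, 37846, 37845              (edge 34 subdivided by 7, 8)
Type 3: C = 012,   faces 456, 3856, 3746, 37458              (edges 34, 35 subdivided by 7, 8)
Type 4: C = 012,   faces 4586, 3586, 3746, 3745              (edges 34, 56 subdivided by 7, 8)
Type 5: C = 0123,  faces 567, 467, 457, 456
Type 6: C = 0123,  faces 567, 467, 4857, 4856                (edge 45 subdivided by 8)
Type 7: C = 01234, faces 678, 578, 568, 567 -/
def typ : ℕ → List (ℕ × ℕ × ℕ) × List (List (ℕ × ℕ × ℕ))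
  | 0 => ([(0,1,2)], [[(4,5,6)],[(3,5,6)],[(3,4,6)],[(3,4,5)]])
  | 1 => ([(0,1,2)], [[(4,5,6)],[(3,5,6)],[(3,7,4),(3,4,6)],[(3,7,4),(3,4,5)]])
  | 2 => ([(0,1,2)], [[(4,5,6)],[(3,5,6)],[(3,7,8),(3,8,4),(3,4,6)],[(3,7,8),(3,8,4),(3,4,5)]])
  | 3 => ([(0,1,2)], [[(4,5,6)],[(3,8,5),(3,5,6)],[(3,7,4),(3,4,6)],[(3,7,4),(3,4,5),(3,5,8)]])
  | 4 => ([(0,1,2)], [[(4,5,8),(4,8,6)],[(3,5,8),(3,8,6)],[(3,7,4),(3,4,6)],[(3,7,4),(3,4,5)]])
  | 5 => ([(0,1,2),(0,2,3)], [[(5,6,7)],[(4,6,7)],[(4,5,7)],[(4,5,6)]])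
  | 6 => ([(0,1,2),(0,2,3)], [[(5,6,7)],[(4,6,7)],[(4,8,5),(4,5,7)],[(4,8,5),(4,5,6)]])
  | _ => ([(0,1,2),(0,2,3),(0,3,4)], [[(6,7,8)],[(5,7,8)],[(5,6,8)],[(5,6,7)]])

/-- `n`-th element with default -/
def nth {α : Type} (d : α) : List α → ℕ → α
  | [], _ => d
  | a :: _, 0 => a
  | _ :: l, n + 1 => nth d l n

/-- xor of `x (v s) (v t)` over `t` in the list -/
def fanX1 (x : Fin 9 → Fin 9 → Fin 9 → Fin 9 → Fin 9 → Fin 9 → Bool) (v : ℕ → Fin 9)
    (s : ℕ × ℕ × ℕ) : List (ℕ × ℕ × ℕ) → Bool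
  | [] => false
  | t :: Q => xor (x (v s.1) (v s.2.1) (v s.2.2) (v t.1) (v t.2.1) (v t.2.2)) (fanX1 x v s Q)

/-- xor of `x (v s) (v t)` over all pairs of triangles `s`, `t` in the two lists -/
def fanX (x : Fin 9 → Fin 9 → Fin 9 → Fin 9 → Fin 9 → Fin 9 → Bool) (v : ℕ → Fin 9)
    (Q : List (ℕ × ℕ × ℕ)) : List (ℕ × ℕ × ℕ) → Bool
  | [] => false
  | s :: P => xor (fanX1 x v s Q) (fanX x v Q P)

/-- parity of the linking number of the cycle and the `i`-th face of configuration type `t` -/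
def faceX (x : Fin 9 → Fin 9 → Fin 9 → Fin 9 → Fin 9 → Fin 9 → Bool) (v : ℕ → Fin 9)
    (t i : ℕ) : Bool := fanX x v (nth [] (typ t).2 i) (typ t).1

/-- The properties of the mod 2 linking numbers of triangles used by the certificate. -/
structure ParSys (x : Fin 9 → Fin 9 → Fin 9 → Fin 9 → Fin 9 → Fin 9 → Bool) : Prop where
  rot : ∀ v, Inj9 v → x (v 1) (v 2) (v 0) (v 3) (v 4) (v 5) = x (v 0) (v 1) (v 2) (v 3) (v 4) (v 5)
  swap : ∀ v, Inj9 v → x (v 1) (v 0) (v 2) (v 3) (v 4) (v 5) = x (v 0) (v 1) (v 2) (v 3) (v 4) (v 5)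
  symm : ∀ v, Inj9 v → x (v 3) (v 4) (v 5) (v 0) (v 1) (v 2) = x (v 0) (v 1) (v 2) (v 3) (v 4) (v 5)
  r1 : ∀ v, Inj9 v → xor (xor (xor (x (v 0) (v 1) (v 2) (v 3) (v 4) (v 5))
    (x (v 0) (v 1) (v 2) (v 3) (v 4) (v 6))) (x (v 0) (v 1) (v 2) (v 3) (v 5) (v 6)))
    (x (v 0) (v 1) (v 2) (v 4) (v 5) (v 6)) = false
  r2 : ∀ v, Inj9 v → xor (xor (xor (xor (xor (xor (xor (xor (xor
    (x (v 0) (v 1) (v 2) (v 3) (v 4) (v 5)) (x (v 0) (v 1) (v 3) (v 2) (v 4) (v 5)))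
    (x (v 0) (v 1) (v 4) (v 2) (v 3) (v 5))) (x (v 0) (v 1) (v 5) (v 2) (v 3) (v 4)))
    (x (v 0) (v 2) (v 3) (v 1) (v 4) (v 5))) (x (v 0) (v 2) (v 4) (v 1) (v 3) (v 5)))
    (x (v 0) (v 2) (v 5) (v 1) (v 3) (v 4))) (x (v 0) (v 3) (v 4) (v 1) (v 2) (v 5)))
    (x (v 0) (v 3) (v 5) (v 1) (v 2) (v 4))) (x (v 0) (v 4) (v 5) (v 1) (v 2) (v 3)) = true
  /-- at most two of the four faces of a subdivided `K_4` link a disjoint cycle oddly -/
  k4 : ∀ v, Inj9 v → ∀ t < 8, ∀ i < 4, ∀ j < 4, ∀ l < 4, i ≠ j → i ≠ l → j ≠ l →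
    faceX x v t i = true → faceX x v t j = true → faceX x v t l = false

/-- JOB S: if all linking numbers are at most 1 in absolute value, then the parities form a
`ParSys`. -/
def JobS : Prop := ∀ m, LinkingData m →
  (∀ C D : GCycle (⊤ : SimpleGraph (Fin 9)), (∀ i j, C.vert i ≠ D.vert j) →
    ∀ n : ℤ, 2 * n = cycSum m C D → |n| ≤ 1) → ParSys (par m)

theorem jobC_of (hS : JobS) (hcert : ∀ x, ParSys x → False) : JobC := by
  intro m hm
  by_contra hcon
  push Not at hcon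
  refine hcert _ (hS m hm ?_)
  intro C D hCD n hn
  have := hcon C D hCD n hn
  omega

end Pool.Agent.H23.K9
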