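import Pool.Agent.H23.K9.Rows
import Pool.Agent.H23.K9.Sem

/-!
# Evaluation of packed vectors over `F_2`
-/

namespace Pool.Agent.H23.K9

/-- `2 ^ 192` -/
def M192 : Nat := 0x1000000000000000000000000000000000000000000000000

/-- slot `i` of a packed list of 192-bit vectors -/
def slot (x i : Nat) : Nat := Nat.mod (Nat.shiftRight x (Nat.mul (nat_lit 192) i)) M192

/-- the vector of the constant `1` -/
def ONE : Nat := 0x800000000000000000000000000000000000000000000000

/-- partial evaluation -/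
def evn (y : ℕ → Bool) (v : ℕ) : ℕ → Bool
  | 0 => false
  | n + 1 => xor (evn y v n) (v.testBit n && y n)

/-- value of the affine form `v` (coefficient `i` = bit `i`, `i < 192`) at `y` -/
def ev (y : ℕ → Bool) (v : ℕ) : Bool := evn y v 192

theorem M192_eq : M192 = 2 ^ 192 := by norm_num [M192]

theorem ONE_eq : ONE = 2 ^ 191 := by norm_num [ONE]

theorem testBit_slot (x i k : ℕ) :
    (slot x i).testBit k = (decide (k < 192) && x.testBit (192 * i + k)) := by
  have : slot x i = (x >>> (192 * i)) % 2 ^ 192 := by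
    rw [← M192_eq]; rfl
  rw [this, Nat.testBit_mod_two_pow, Nat.testBit_shiftRight]

theorem evn_xor (y : ℕ → Bool) (v w n : ℕ) :
    evn y (v ^^^ w) n = xor (evn y v n) (evn y w n) := by
  induction n with
  | zero => rfl
  | succ n ih =>
    simp only [evn, ih, Nat.testBit_xor]
    cases evn y v n <;> cases evn y w n <;> cases v.testBit n <;> cases w.testBit n <;>
      cases y n <;> rfl

theorem ev_xor (y : ℕ → Bool) (v w : ℕ) : ev y (v ^^^ w) = xor (ev y v) (ev y w) :=
  evn_xor y v w 192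

theorem evn_congr (y : ℕ → Bool) (v w n : ℕ) (h : ∀ k < n, v.testBit k = w.testBit k) :
    evn y v n = evn y w n := by
  induction n with
  | zero => rfl
  | succ n ih =>
    simp only [evn]
    rw [ih (fun k hk => h k (by omega)), h n (by omega)]

theorem ev_congr (y : ℕ → Bool) (v w : ℕ) (h : ∀ k < 192, v.testBit k = w.testBit k) :
    ev y v = ev y w := evn_congr y v w 192 h

theorem evn_zero (y : ℕ → Bool) (n : ℕ) : evn y 0 n = false := by
  induction n with
  | zero => rfl
  | succ n ih => simp [evn, ih]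

@[simp] theorem ev_zero (y : ℕ → Bool) : ev y 0 = false := evn_zero y 192

theorem evn_two_pow (y : ℕ → Bool) (i n : ℕ) : evn y (2 ^ i) n = (decide (i < n) && y i) := by
  induction n with
  | zero => simp [evn]
  | succ n ih =>
    simp only [evn, ih, Nat.testBit_two_pow]
    by_cases h : i = n
    · subst h; simp
    · by_cases h2 : i < n
      · simp [h, h2, Nat.lt_succ_of_lt h2]
      · have : ¬ i < n + 1 := by omega
        simp [h, h2, this]

theorem ev_two_pow (y : ℕ → Bool) (i : ℕ) (h : i < 192) : ev y (2 ^ i) = y i := by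
  simp [ev, evn_two_pow, h]

theorem ev_ONE (y : ℕ → Bool) (h : y 191 = true) : ev y ONE = true := by
  rw [ONE_eq, ev_two_pow y 191 (by norm_num), h]

theorem slot_xor (x z i : ℕ) : slot (x ^^^ z) i = slot x i ^^^ slot z i := by
  apply Nat.eq_of_testBit_eq
  intro k
  simp only [testBit_slot, Nat.testBit_xor]
  cases decide (k < 192) <;> simp

@[simp] theorem slot_zero (i : ℕ) : slot 0 i = 0 := by
  apply Nat.eq_of_testBit_eq
  intro k
  simp [testBit_slot]

/-- the weights: all sums of three distinct weights are different -/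
def Wt : Fin 9 → ℕ := ![0, 3, 5, 6, 7, 14, 25, 44, 79]

/-- The table of rows represents the values of `x` at `y`. -/
def Tab (y : ℕ → Bool) (x : Fin 9 → Fin 9 → Fin 9 → Fin 9 → Fin 9 → Fin 9 → Bool) : Prop :=
  ∀ v, Inj9 v → ev y (slot (rowOf (Wt (v 0) + Wt (v 1) + Wt (v 2))) (Wt (v 3) + Wt (v 4) + Wt (v 5)))
    = x (v 0) (v 1) (v 2) (v 3) (v 4) (v 5)

/-- JOB T -/
def JobT : Prop := ∀ x, ParSys x → ∃ y : ℕ → Bool, y 191 = true ∧ Tab y x

/-- byte `i` of `ws` -/
def byte (ws i : Nat) : Nat := Nat.mod (Nat.shiftRight ws (Nat.mul (nat_lit 8) i)) (nat_lit 256)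

/-- key of a triangle (three labels); `ws` packs the weights of the labels in bytes -/
def key (ws : Nat) (t : Nat × Nat × Nat) : Nat :=
  Nat.add (Nat.add (byte ws t.1) (byte ws t.2.1)) (byte ws t.2.2)

/-- is the packed list of nine bytes a permutation of the weights 0,3,5,6,7,14,25,44,79 -/
noncomputable def okPerm (ws : Nat) : Bool :=
  Nat.beq (Nat.rec (motive := fun _ => Nat → Nat → Nat) (fun _ a => a)
    (fun _ ih w a => ih (Nat.shiftRight w (nat_lit 8)) (Nat.lor a (Nat.shiftLeft (nat_lit 1) (Nat.mod w (nat_lit 256)))))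
    (nat_lit 9) ws (nat_lit 0)) (nat_lit 604462909824906806968553)

/-- bitmask of the weights -/
def wmask : ℕ := 604462909824906806968553

theorem okPerm_eq (ws : ℕ) : okPerm ws = Nat.beq
    ((((((((((0 ||| 1 <<< byte ws 0) ||| 1 <<< byte ws 1) ||| 1 <<< byte ws 2) ||| 1 <<< byte ws 3)
      ||| 1 <<< byte ws 4) ||| 1 <<< byte ws 5) ||| 1 <<< byte ws 6) ||| 1 <<< byte ws 7)
      ||| 1 <<< byte ws 8)) wmask := by
  have h : ∀ i, byte ws i = (ws >>> (8 * i)) % 256 := fun i => rfl
  have e : okPerm ws = Nat.beq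
    ((((((((((0 ||| 1 <<< (ws % 256)) ||| 1 <<< ((ws >>> 8) % 256)) ||| 1 <<< ((ws >>> 8 >>> 8) % 256))
      ||| 1 <<< ((ws >>> 8 >>> 8 >>> 8) % 256)) ||| 1 <<< ((ws >>> 8 >>> 8 >>> 8 >>> 8) % 256))
      ||| 1 <<< ((ws >>> 8 >>> 8 >>> 8 >>> 8 >>> 8) % 256))
      ||| 1 <<< ((ws >>> 8 >>> 8 >>> 8 >>> 8 >>> 8 >>> 8) % 256))
      ||| 1 <<< ((ws >>> 8 >>> 8 >>> 8 >>> 8 >>> 8 >>> 8 >>> 8) % 256))
      ||| 1 <<< ((ws >>> 8 >>> 8 >>> 8 >>> 8 >>> 8 >>> 8 >>> 8 >>> 8) % 256))) wmask := rfl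
  rw [e]
  simp only [h, ← Nat.shiftRight_add]
  rfl

theorem testBit_one_shl (a k : ℕ) : (1 <<< a).testBit k = decide (a = k) := by
  rw [Nat.one_shiftLeft, Nat.testBit_two_pow]

theorem wmask_testBit : ∀ b < 256, wmask.testBit b = true → ∃ j : Fin 9, b = Wt j := by
  decide +kernel

theorem Wt_lt (j : Fin 9) : Wt j < 256 := by revert j; decide

theorem Wt_inj : Function.Injective Wt := by decide

theorem wmask_Wt : ∀ j : Fin 9, wmask.testBit (Wt j) = true := by decide +kernel

theorem okPerm_spec (ws : ℕ) (h : okPerm ws = true) :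
    ∃ v : ℕ → Fin 9, Inj9 v ∧ ∀ a < 9, byte ws a = Wt (v a) := by
  rw [okPerm_eq] at h
  have h' := Nat.eq_of_beq_eq_true h
  have hb : ∀ b, wmask.testBit b = (decide (byte ws 0 = b) || decide (byte ws 1 = b) ||
      decide (byte ws 2 = b) || decide (byte ws 3 = b) || decide (byte ws 4 = b) ||
      decide (byte ws 5 = b) || decide (byte ws 6 = b) || decide (byte ws 7 = b) ||
      decide (byte ws 8 = b)) := by
    intro b
    rw [← h']
    simp only [Nat.testBit_or, testBit_one_shl, Nat.zero_testBit, Bool.false_or]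
  have hlt : ∀ a, byte ws a < 256 := fun a => Nat.mod_lt _ (by norm_num)
  have hex : ∀ a : Fin 9, ∃ j : Fin 9, byte ws a = Wt j := by
    intro a
    apply wmask_testBit _ (hlt a)
    rw [hb]
    fin_cases a <;> simp
  choose f hf using hex
  have hsurj : Function.Surjective f := by
    intro j
    have hj := wmask_Wt j
    rw [hb] at hj
    simp only [Bool.or_eq_true, decide_eq_true_eq] at hj
    rcases hj with ((((((((hj | hj) | hj) | hj) | hj) | hj) | hj) | hj) | hj)
    · exact ⟨0, Wt_inj (by rw [← hf, ← hj]; rfl)⟩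
    · exact ⟨1, Wt_inj (by rw [← hf, ← hj]; rfl)⟩
    · exact ⟨2, Wt_inj (by rw [← hf, ← hj]; rfl)⟩
    · exact ⟨3, Wt_inj (by rw [← hf, ← hj]; rfl)⟩
    · exact ⟨4, Wt_inj (by rw [← hf, ← hj]; rfl)⟩
    · exact ⟨5, Wt_inj (by rw [← hf, ← hj]; rfl)⟩
    · exact ⟨6, Wt_inj (by rw [← hf, ← hj]; rfl)⟩
    · exact ⟨7, Wt_inj (by rw [← hf, ← hj]; rfl)⟩
    · exact ⟨8, Wt_inj (by rw [← hf, ← hj]; rfl)⟩
  have hinj : Function.Injective f := Finite.injective_iff_surjective.mpr hsurj
  refine ⟨fun a => if h : a < 9 then f ⟨a, h⟩ else 0, ?_, ?_⟩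
  · intro a ha b hb' hab
    simp only [ha, hb', dif_pos] at hab
    simpa using hinj hab
  · intro a ha
    simp only [ha, dif_pos]
    exact hf ⟨a, ha⟩

end Pool.Agent.H23.K9

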