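import Pool.Agent.H23.K9.Defs

/-!
# Interface between the geometric part and the combinatorial part
-/

namespace Pool.Agent.H23.K9

/-- Twice the linking number of the closed curves of the triangles `abc` and `def`. -/
def triSum (m : Fin 9 → Fin 9 → Fin 9 → Fin 9 → ℤ) (a b c d e f : Fin 9) : ℤ :=
  (m a b d e + m a b e f + m a b f d) + (m b c d e + m b c e f + m b c f d)
    + (m c a d e + m c a e f + m c a f d)

/-- The abstract properties of the matrix `m a b c d` of signed crossing numbers between the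
(oriented) edges `ab` and `cd` that are used in the combinatorial part. -/
structure LinkingData (m : Fin 9 → Fin 9 → Fin 9 → Fin 9 → ℤ) : Prop where
  anti : ∀ a b c d, m b a c d = - m a b c d
  symm : ∀ a b c d, m c d a b = m a b c d
  /-- disjoint triangles have integral linking number -/
  even : ∀ v : Fin 6 → Fin 9, Function.Injective v →
    2 ∣ triSum m (v 0) (v 1) (v 2) (v 3) (v 4) (v 5)
  /-- Conway-Gordon-Sachs: the sum of the ten linking numbers of a `K_6` is odd -/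
  parity : ∀ v : Fin 6 → Fin 9, Function.Injective v → Odd
    (triSum m (v 0) (v 1) (v 2) (v 3) (v 4) (v 5) / 2 + triSum m (v 0) (v 1) (v 3) (v 2) (v 4) (v 5) / 2
    + triSum m (v 0) (v 1) (v 4) (v 2) (v 3) (v 5) / 2 + triSum m (v 0) (v 1) (v 5) (v 2) (v 3) (v 4) / 2
    + triSum m (v 0) (v 2) (v 3) (v 1) (v 4) (v 5) / 2 + triSum m (v 0) (v 2) (v 4) (v 1) (v 3) (v 5) / 2
    + triSum m (v 0) (v 2) (v 5) (v 1) (v 3) (v 4) / 2 + triSum m (v 0) (v 3) (v 4) (v 1) (v 2) (v 5) / 2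
    + triSum m (v 0) (v 3) (v 5) (v 1) (v 2) (v 4) / 2 + triSum m (v 0) (v 4) (v 5) (v 1) (v 2) (v 3) / 2)

/-- Sum of `m` over all pairs of edges of two cycles. -/
def cycSum (m : Fin 9 → Fin 9 → Fin 9 → Fin 9 → ℤ) (C D : GCycle (⊤ : SimpleGraph (Fin 9))) : ℤ :=
  ∑ i ∈ Finset.range C.len, ∑ j ∈ Finset.range D.len,
    m (C.vert i) (C.vert (i + 1)) (D.vert j) (D.vert (j + 1))

/-- A family of points in general position (only the first `M` matter). -/
structure Generic (Y : ℕ → E3) (M : ℕ) : Prop where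
  x_ne : ∀ i < M, ∀ j < M, i ≠ j → Y i 0 ≠ Y j 0
  planar : ∀ i < M, ∀ j < M, ∀ k < M, i ≠ j → i ≠ k → j ≠ k → planarDet (Y i) (Y j) (Y k) ≠ 0
  space : ∀ i < M, ∀ j < M, ∀ k < M, ∀ l < M, i ≠ j → i ≠ k → i ≠ l → j ≠ k → j ≠ l → k ≠ l →
    spaceDet (Y i) (Y j) (Y k) (Y l) ≠ 0

/-- Number (label) of the `k`-th sample point, `0 ≤ k ≤ N`, on the edge `uv` of `K_9`: the vertices
have the labels `0, …, 8`; the interior sample points of the edge `uv`, `u < v`, have the labels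
`9 + (9 u + v) N + k`, `0 < k < N`; the edge `vu` is the reversed edge. -/
def lab (N : ℕ) (u v : Fin 9) (k : ℕ) : ℕ :=
  if k = 0 then u
  else if k = N then v
  else if u < v then 9 + (9 * u + v) * N + k
  else 9 + (9 * v + u) * N + (N - k)

/-- All labels are smaller than this number. -/
def labBound (N : ℕ) : ℕ := 9 + 81 * N + N

open Classical in
/-- The matrix of signed crossing numbers of the polygonal edges given by sample points. -/
noncomputable def crossMat (Y : ℕ → E3) (N : ℕ) (a b c d : Fin 9) : ℤ :=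
  if a ≠ b ∧ a ≠ c ∧ a ≠ d ∧ b ≠ c ∧ b ≠ d ∧ c ≠ d then
    ∑ k ∈ Finset.range N, ∑ l ∈ Finset.range N,
      crossSign (Y (lab N a b k)) (Y (lab N a b (k + 1))) (Y (lab N c d l)) (Y (lab N c d (l + 1)))
  else 0

/-- JOB G1 (helper58) -/
def JobG1 : Prop := ∀ (Y : ℕ → E3) (N : ℕ), 1 ≤ N → Generic Y (labBound N) →
  LinkingData (crossMat Y N)

/-- JOB G2 (helper64) -/
def JobG2 : Prop := ∀ f : SpatialEmbedding (⊤ : SimpleGraph (Fin 9)),
  ∃ (Y : ℕ → E3) (N : ℕ), 1 ≤ N ∧ Generic Y (labBound N) ∧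
    ∀ C D : GCycle (⊤ : SimpleGraph (Fin 9)), (∀ i j, C.vert i ≠ D.vert j) →
      ∀ n : ℤ, 2 * n = cycSum (crossMat Y N) C D →
        IsLinkingNumber (f.curve C) C.len (f.curve D) D.len n

/-- JOB C (helper23) -/
def JobC : Prop := ∀ m, LinkingData m →
  ∃ C D : GCycle (⊤ : SimpleGraph (Fin 9)), (∀ i j, C.vert i ≠ D.vert j) ∧
    ∃ n : ℤ, 2 * n = cycSum m C D ∧ 2 ≤ |n|

theorem main_of_jobs (h1 : JobG1) (h2 : JobG2) (hC : JobC) :
    StronglyIntrinsicallyLinked (⊤ : SimpleGraph (Fin 9)) := by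
  intro f
  obtain ⟨Y, N, hN, hY, h⟩ := h2 f
  obtain ⟨C, D, hCD, n, hn, hn2⟩ := hC _ (h1 Y N hN hY)
  exact ⟨C, D, hCD, n, hn2, h C D hCD n hn⟩

end Pool.Agent.H23.K9
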