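import Pool.Agent.H23.K9.Check

/-!
# Soundness of the certificate checker
-/

namespace Pool.Agent.H23.K9

set_option maxHeartbeats 40000

/-- all equations of the context hold at `y` -/
def Inv (y : ℕ → Bool) (ctx : ℕ) : Prop := ∀ i, ev y (slot ctx i) = false

theorem inv_zero (y : ℕ → Bool) : Inv y 0 := fun i => by simp

theorem redN_succ (ctx piv n v : ℕ) : redN ctx piv (n + 1) v =
    bif Nat.beq (Nat.land v piv) 0 then v
    else redN ctx piv n (v ^^^ slot ctx (lowh (Nat.land v piv))) := by
  show (Bool.rec (redN ctx piv n (v ^^^ slot ctx (lowh (Nat.land v piv)))) v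
    (Nat.beq (Nat.land v piv) (nat_lit 0)) : ℕ) = _
  cases Nat.beq (Nat.land v piv) (nat_lit 0) <;> rfl

theorem redN_sound (y : ℕ → Bool) (ctx piv n : ℕ) (h : Inv y ctx) : ∀ v : ℕ,
    ev y (redN ctx piv n v) = ev y v := by
  induction n with
  | zero => intro v; rfl
  | succ n ih =>
    intro v
    rw [redN_succ]
    cases Nat.beq (Nat.land v piv) 0 with
    | false =>
      rw [cond_false, ih, ev_xor, h, Bool.xor_false]
    | true => rfl

theorem red_sound (y : ℕ → Bool) (ctx piv v : ℕ) (h : Inv y ctx) :
    ev y (red ctx piv v) = ev y v := redN_sound y ctx piv _ h v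

/-- some postponed branch is satisfied by `y` -/
def AliveStack (y : ℕ → Bool) : Stack → Prop
  | Stack.nil => False
  | Stack.cons c _ w s => (Inv y c ∧ ev y w = false) ∨ AliveStack y s

/-- some branch of the state is satisfied by `y` -/
def AliveRes (y : ℕ → Bool) : Res → Prop
  | Res.fail => True
  | Res.done => False
  | Res.st ctx _ s => Inv y ctx ∨ AliveStack y s

theorem addEq_inv (y : ℕ → Bool) (ctx piv r : ℕ) (s : Stack) (h : Inv y ctx)
    (hr : ev y r = false) : AliveRes y (addEq ctx piv r s) := by
  left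
  intro i
  generalize hj : Nat.mod (Nat.xor r (Nat.land r (Nat.sub r (nat_lit 1)))) (nat_lit 197) = j
  show ev y (slot (ctx ^^^ ((r % M192) <<< (192 * j))) i) = false
  rw [slot_xor, ev_xor, h i, Bool.false_xor]
  by_cases hij : i = j
  · subst hij
    rw [← hr]
    apply ev_congr
    intro k hk
    rw [testBit_slot, Nat.testBit_shiftLeft, M192_eq, Nat.testBit_mod_two_pow]
    simp [hk]
  · have : slot ((r % M192) <<< (192 * j)) i = 0 := by
      apply Nat.eq_of_testBit_eq
      intro k
      rw [testBit_slot, Nat.testBit_shiftLeft, M192_eq, Nat.testBit_mod_two_pow, Nat.zero_testBit]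
      by_cases hk : k < 192
      · rcases Nat.lt_or_gt_of_ne hij with h1 | h1
        · have : ¬ (192 * i + k ≥ 192 * j) := by omega
          simp [this]
        · have : ¬ (192 * i + k - 192 * j < 192) := by omega
          simp [this]
      · simp [hk]
    rw [this, ev_zero]

theorem addEq_stack (y : ℕ → Bool) (ctx piv r : ℕ) (s : Stack) (h : AliveStack y s) :
    AliveRes y (addEq ctx piv r s) := Or.inr h

theorem pushPop_sound (y : ℕ → Bool) (hy : y 191 = true) (s : Stack) : ∀ ctx piv v : ℕ,
    (Inv y ctx ∧ ev y v = false) ∨ AliveStack y s → AliveRes y (pushPop s ctx piv v) := by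
  induction s with
  | nil =>
    intro ctx piv v h
    rcases h with ⟨h1, h2⟩ | h
    · have hr : ev y (red ctx piv v) = false := by rw [red_sound y ctx piv v h1, h2]
      show AliveRes y ((fun r => Bool.rec (Bool.rec (addEq ctx piv r Stack.nil) Res.done (Nat.beq r ONE))
        (Res.st ctx piv Stack.nil) (Nat.beq r (nat_lit 0))) (red ctx piv v))
      generalize red ctx piv v = r at hr
      show AliveRes y (Bool.rec (Bool.rec (addEq ctx piv r Stack.nil) Res.done (Nat.beq r ONE))
        (Res.st ctx piv Stack.nil) (Nat.beq r (nat_lit 0)) : Res)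
      cases Nat.beq r (nat_lit 0) with
      | true => exact Or.inl h1
      | false =>
        cases hO : Nat.beq r ONE with
        | true =>
          rw [Nat.eq_of_beq_eq_true hO, ev_ONE y hy] at hr
          exact absurd hr (by decide)
        | false => exact addEq_inv y ctx piv r _ h1 hr
    · exact h.elim
  | cons c p w s' ih =>
    intro ctx piv v h
    show AliveRes y ((fun r => Bool.rec (Bool.rec (addEq ctx piv r (Stack.cons c p w s'))
        (pushPop s' c p w) (Nat.beq r ONE))
        (Res.st ctx piv (Stack.cons c p w s')) (Nat.beq r (nat_lit 0))) (red ctx piv v))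
    rcases h with ⟨h1, h2⟩ | h
    · have hr : ev y (red ctx piv v) = false := by rw [red_sound y ctx piv v h1, h2]
      generalize red ctx piv v = r at hr
      show AliveRes y (Bool.rec (Bool.rec (addEq ctx piv r (Stack.cons c p w s'))
        (pushPop s' c p w) (Nat.beq r ONE))
        (Res.st ctx piv (Stack.cons c p w s')) (Nat.beq r (nat_lit 0)) : Res)
      cases Nat.beq r (nat_lit 0) with
      | true => exact Or.inl h1
      | false =>
        cases hO : Nat.beq r ONE with
        | true =>
          rw [Nat.eq_of_beq_eq_true hO, ev_ONE y hy] at hr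
          exact absurd hr (by decide)
        | false => exact addEq_inv y ctx piv r _ h1 hr
    · generalize red ctx piv v = r
      show AliveRes y (Bool.rec (Bool.rec (addEq ctx piv r (Stack.cons c p w s'))
        (pushPop s' c p w) (Nat.beq r ONE))
        (Res.st ctx piv (Stack.cons c p w s')) (Nat.beq r (nat_lit 0)) : Res)
      cases Nat.beq r (nat_lit 0) with
      | true => exact Or.inr h
      | false =>
        cases Nat.beq r ONE with
        | true => exact ih c p w h
        | false => exact addEq_stack y ctx piv r _ h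

/-- the value of the pair of triangles with the given labels -/
def pairX (x : Fin 9 → Fin 9 → Fin 9 → Fin 9 → Fin 9 → Fin 9 → Bool) (v : ℕ → Fin 9)
    (p : (ℕ × ℕ × ℕ) × (ℕ × ℕ × ℕ)) : Bool :=
  x (v p.1.1) (v p.1.2.1) (v p.1.2.2) (v p.2.1) (v p.2.2.1) (v p.2.2.2)

/-- the pairs of the pattern are not all linked -/
def HoldsLem (x : Fin 9 → Fin 9 → Fin 9 → Fin 9 → Fin 9 → Fin 9 → Bool) (P : Pat) : Prop :=
  ∀ v, Inj9 v → ¬ ∀ p ∈ P, pairX x v p = true

/-- the six labels of a pair are distinct and `< 9` -/
def okPair (p : (ℕ × ℕ × ℕ) × (ℕ × ℕ × ℕ)) : Bool :=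
  decide ([p.1.1, p.1.2.1, p.1.2.2, p.2.1, p.2.2.1, p.2.2.2].Nodup ∧
    ∀ a ∈ [p.1.1, p.1.2.1, p.1.2.2, p.2.1, p.2.2.1, p.2.2.2], a < 9)

end Pool.Agent.H23.K9
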