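import Pool.Agent.H23.K9.Sound

/-!
# Soundness of the certificate checker, semantic part
-/

namespace Pool.Agent.H23.K9

set_option maxHeartbeats 40000

/-- predicate on all leaves -/
def Tr.Forall {α : Type} (P : α → Prop) : Tr α → Prop
  | Tr.leaf a => P a
  | Tr.node _ l r => Tr.Forall P l ∧ Tr.Forall P r

theorem Tr.look_forall {α : Type} (P : α → Prop) (k : ℕ) (t : Tr α) (h : t.Forall P) :
    P (t.look k) := by
  induction t with
  | leaf a => exact h
  | node m l r ihl ihr =>
    show P (Bool.rec (r.look k) (l.look k) (Nat.ble k m) : α)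
    cases Nat.ble k m with
    | false => exact ihr h.2
    | true => exact ihl h.1

/-- Any six distinct vertices are the images of the labels `0, …, 5` under a bijective labelling. -/
theorem extend6 (u : Fin 6 → Fin 9) (hu : Function.Injective u) :
    ∃ w : ℕ → Fin 9, Inj9 w ∧ ∀ i : Fin 6, w i = u i := by
  classical
  have hc : Function.Injective (Fin.castLE (by norm_num : 6 ≤ 9)) := Fin.castLE_injective _
  let e1 : Fin 6 ≃ Set.range (Fin.castLE (by norm_num : 6 ≤ 9)) := Equiv.ofInjective _ hc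
  let e2 : Fin 6 ≃ Set.range u := Equiv.ofInjective u hu
  let e : {a // a ∈ Set.range (Fin.castLE (by norm_num : 6 ≤ 9))} ≃ {a // a ∈ Set.range u} :=
    e1.symm.trans e2
  let g : Equiv.Perm (Fin 9) := e.extendSubtype
  refine ⟨fun a => g (Fin.ofNat 9 a), ?_, ?_⟩
  · intro a ha b hb hab
    have h1 := g.injective hab
    have h2 := congrArg Fin.val h1
    simpa [Nat.mod_eq_of_lt ha, Nat.mod_eq_of_lt hb] using h2
  · intro i
    have h0 : (Fin.ofNat 9 (i : ℕ)) = Fin.castLE (by norm_num : 6 ≤ 9) i := by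
      ext
      simp [Nat.mod_eq_of_lt (show (i : ℕ) < 9 by omega)]
    show g (Fin.ofNat 9 (i : ℕ)) = u i
    rw [h0]
    have hmem : Fin.castLE (by norm_num : 6 ≤ 9) i ∈ Set.range (Fin.castLE (by norm_num : 6 ≤ 9)) :=
      ⟨i, rfl⟩
    show e.extendSubtype _ = _
    rw [Equiv.extendSubtype_apply_of_mem e _ hmem]
    have : e1.symm ⟨Fin.castLE (by norm_num : 6 ≤ 9) i, hmem⟩ = i := by
      rw [Equiv.symm_apply_eq]; rfl
    show ((e2 (e1.symm ⟨_, hmem⟩) : Set.range u) : Fin 9) = u i
    rw [this]; rfl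

section
variable {x : Fin 9 → Fin 9 → Fin 9 → Fin 9 → Fin 9 → Fin 9 → Bool} {y : ℕ → Bool}
  {ws : ℕ} {v : ℕ → Fin 9}

theorem slotX (hT : Tab y x) (hv : Inj9 v) (hws : ∀ a < 9, byte ws a = Wt (v a))
    (p : (ℕ × ℕ × ℕ) × (ℕ × ℕ × ℕ)) (hp : okPair p = true) :
    ev y (slot (rowOf (key ws p.1)) (key ws p.2)) = pairX x v p := by
  obtain ⟨⟨a, b, c⟩, ⟨d, e, f⟩⟩ := p
  simp only [okPair, decide_eq_true_eq] at hp
  obtain ⟨h1, h2⟩ := hp
  have ka : key ws (a, b, c) = Wt (v a) + Wt (v b) + Wt (v c) := by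
    show byte ws a + byte ws b + byte ws c = _
    rw [hws a (h2 a (by simp)), hws b (h2 b (by simp)), hws c (h2 c (by simp))]
  have kd : key ws (d, e, f) = Wt (v d) + Wt (v e) + Wt (v f) := by
    show byte ws d + byte ws e + byte ws f = _
    rw [hws d (h2 d (by simp)), hws e (h2 e (by simp)), hws f (h2 f (by simp))]
  have hnd : ([a, b, c, d, e, f].map v).Nodup :=
    List.Nodup.map_on (fun i hi j hj h => hv i (h2 i hi) j (h2 j hj) h) h1
  have hinj : Function.Injective ![v a, v b, v c, v d, v e, v f] := by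
    rw [← List.nodup_ofFn]
    simpa [List.ofFn_succ] using hnd
  obtain ⟨w, hw, hw'⟩ := extend6 _ hinj
  have := hT w hw
  have e0 := hw' 0
  have e1 := hw' 1
  have e2 := hw' 2
  have e3 := hw' 3
  have e4 := hw' 4
  have e5 := hw' 5
  simp only [Fin.isValue, Matrix.cons_val_zero, Matrix.cons_val_one, Matrix.cons_val] at e0 e1 e2 e3 e4 e5
  change w 0 = _ at e0
  change w 1 = _ at e1
  change w 2 = _ at e2
  change w 3 = _ at e3
  change w 4 = _ at e4
  change w 5 = _ at e5
  rw [e0, e1, e2, e3, e4, e5] at this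
  show ev y (slot (rowOf (key ws (a, b, c))) (key ws (d, e, f))) = x (v a) (v b) (v c) (v d) (v e) (v f)
  rw [ka, kd, this]

end

end Pool.Agent.H23.K9
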