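import Pool.Agent.H23.K9.Sound2

/-!
# Soundness of the certificate checker: faces, commands, runs
-/

namespace Pool.Agent.H23.K9

set_option maxHeartbeats 40000

theorem faceVec_xor (ws r1 r2 : ℕ) (Q : List (ℕ × ℕ × ℕ)) :
    faceVec ws (r1 ^^^ r2) Q = faceVec ws r1 Q ^^^ faceVec ws r2 Q := by
  induction Q with
  | nil => exact (Nat.xor_self 0).symm
  | cons t Q ih =>
    show slot (r1 ^^^ r2) (key ws t) ^^^ faceVec ws (r1 ^^^ r2) Q =
      (slot r1 (key ws t) ^^^ faceVec ws r1 Q) ^^^ (slot r2 (key ws t) ^^^ faceVec ws r2 Q)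
    rw [ih, slot_xor]
    simp only [Nat.xor_assoc, Nat.xor_left_comm]

theorem faceVec_zero (ws : ℕ) (Q : List (ℕ × ℕ × ℕ)) : faceVec ws 0 Q = 0 := by
  induction Q with
  | nil => rfl
  | cons t Q ih =>
    show slot 0 (key ws t) ^^^ faceVec ws 0 Q = 0
    rw [ih, slot_zero, Nat.xor_zero]

section
variable {x : Fin 9 → Fin 9 → Fin 9 → Fin 9 → Fin 9 → Fin 9 → Bool} {y : ℕ → Bool}
  {ws : ℕ} {v : ℕ → Fin 9}

theorem faceVec_row (hT : Tab y x) (hv : Inj9 v) (hws : ∀ a < 9, byte ws a = Wt (v a))
    (s : ℕ × ℕ × ℕ) (Q : List (ℕ × ℕ × ℕ)) (hQ : ∀ t ∈ Q, okPair (s, t) = true) :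
    ev y (faceVec ws (rowOf (key ws s)) Q) = fanX1 x v s Q := by
  induction Q with
  | nil => exact ev_zero y
  | cons t Q ih =>
    show ev y (slot (rowOf (key ws s)) (key ws t) ^^^ faceVec ws (rowOf (key ws s)) Q) =
      xor (pairX x v (s, t)) (fanX1 x v s Q)
    rw [ev_xor, ih (fun t ht => hQ t (List.mem_cons_of_mem _ ht)),
      ← slotX hT hv hws (s, t) (hQ t List.mem_cons_self)]

theorem faceVec_rows (hT : Tab y x) (hv : Inj9 v) (hws : ∀ a < 9, byte ws a = Wt (v a))
    (P Q : List (ℕ × ℕ × ℕ)) (hQ : ∀ s ∈ P, ∀ t ∈ Q, okPair (s, t) = true) :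
    ev y (faceVec ws (rowsXor ws P) Q) = fanX x v Q P := by
  induction P with
  | nil =>
    show ev y (faceVec ws 0 Q) = false
    rw [faceVec_zero, ev_zero]
  | cons s P ih =>
    show ev y (faceVec ws (rowOf (key ws s) ^^^ rowsXor ws P) Q) =
      xor (fanX1 x v s Q) (fanX x v Q P)
    rw [faceVec_xor, ev_xor, ih (fun t ht => hQ t (List.mem_cons_of_mem _ ht)),
      faceVec_row hT hv hws s Q (hQ s List.mem_cons_self)]

end

/-- all pairs from the two lists have six distinct labels `< 9` -/
def okFans (P Q : List (ℕ × ℕ × ℕ)) : Bool := P.all fun s => Q.all fun t => okPair (s, t)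

theorem okFans_spec {P Q : List (ℕ × ℕ × ℕ)} (h : okFans P Q = true) :
    ∀ s ∈ P, ∀ t ∈ Q, okPair (s, t) = true := by
  intro s hs t ht
  have h1 := List.all_eq_true.mp h s hs
  exact List.all_eq_true.mp h1 t ht

/-- the clause is one of those provided by `ParSys.k4` -/
def KindOK (K : Kind) : Prop := okFans K.C K.a = true ∧ okFans K.C K.b = true ∧
  okFans K.C K.l = true ∧ ∃ t < 8, ∃ i < 4, ∃ j < 4, ∃ l < 4, i ≠ j ∧ i ≠ l ∧ j ≠ l ∧
    K.C = (typ t).1 ∧ K.a = nth [] (typ t).2 i ∧ K.b = nth [] (typ t).2 j ∧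
    K.l = nth [] (typ t).2 l

theorem kindOK_of (K : Kind) (t i j l : ℕ) (ht : t < 8) (hi : i < 4) (hj : j < 4) (hl : l < 4)
    (hij : i ≠ j) (hil : i ≠ l) (hjl : j ≠ l) (h0 : K.C = (typ t).1)
    (h1 : K.a = nth [] (typ t).2 i) (h2 : K.b = nth [] (typ t).2 j)
    (h3 : K.l = nth [] (typ t).2 l)
    (hok : (okFans K.C K.a && okFans K.C K.b && okFans K.C K.l) = true) : KindOK K := by
  simp only [Bool.and_eq_true] at hok
  exact ⟨hok.1.1, hok.1.2, hok.2, t, ht, i, hi, j, hj, l, hl, hij, hil, hjl, h0, h1, h2, h3⟩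

theorem kindTree_ok : kindTree.Forall KindOK :=
    ⟨⟨⟨⟨(kindOK_of _ 0 0 1 2 (by decide) (by decide) (by decide) (by decide) (by decide) (by decide) (by decide) rfl rfl rfl rfl (by decide)),
    ⟨(kindOK_of _ 1 0 1 2 (by decide) (by decide) (by decide) (by decide) (by decide) (by decide) (by decide) rfl rfl rfl rfl (by decide)),
    (kindOK_of _ 1 0 2 1 (by decide) (by decide) (by decide) (by decide) (by decide) (by decide) (by decide) rfl rfl rfl rfl (by decide))⟩⟩,
    ⟨(kindOK_of _ 1 0 2 3 (by decide) (by decide) (by decide) (by decide) (by decide) (by decide) (by decide) rfl rfl rfl rfl (by decide)),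
    ⟨(kindOK_of _ 1 2 3 0 (by decide) (by decide) (by decide) (by decide) (by decide) (by decide) (by decide) rfl rfl rfl rfl (by decide)),
    (kindOK_of _ 2 0 1 2 (by decide) (by decide) (by decide) (by decide) (by decide) (by decide) (by decide) rfl rfl rfl rfl (by decide))⟩⟩⟩,
    ⟨⟨(kindOK_of _ 2 0 2 1 (by decide) (by decide) (by decide) (by decide) (by decide) (by decide) (by decide) rfl rfl rfl rfl (by decide)),
    ⟨(kindOK_of _ 2 0 2 3 (by decide) (by decide) (by decide) (by decide) (by decide) (by decide) (by decide) rfl rfl rfl rfl (by decide)),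
    (kindOK_of _ 2 2 3 0 (by decide) (by decide) (by decide) (by decide) (by decide) (by decide) (by decide) rfl rfl rfl rfl (by decide))⟩⟩,
    ⟨(kindOK_of _ 3 0 1 2 (by decide) (by decide) (by decide) (by decide) (by decide) (by decide) (by decide) rfl rfl rfl rfl (by decide)),
    ⟨(kindOK_of _ 3 0 1 3 (by decide) (by decide) (by decide) (by decide) (by decide) (by decide) (by decide) rfl rfl rfl rfl (by decide)),
    (kindOK_of _ 3 0 3 1 (by decide) (by decide) (by decide) (by decide) (by decide) (by decide) (by decide) rfl rfl rfl rfl (by decide))⟩⟩⟩⟩,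
    ⟨⟨⟨(kindOK_of _ 3 1 2 0 (by decide) (by decide) (by decide) (by decide) (by decide) (by decide) (by decide) rfl rfl rfl rfl (by decide)),
    ⟨(kindOK_of _ 3 1 2 3 (by decide) (by decide) (by decide) (by decide) (by decide) (by decide) (by decide) rfl rfl rfl rfl (by decide)),
    (kindOK_of _ 3 1 3 0 (by decide) (by decide) (by decide) (by decide) (by decide) (by decide) (by decide) rfl rfl rfl rfl (by decide))⟩⟩,
    ⟨(kindOK_of _ 3 1 3 2 (by decide) (by decide) (by decide) (by decide) (by decide) (by decide) (by decide) rfl rfl rfl rfl (by decide)),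
    ⟨(kindOK_of _ 4 0 1 2 (by decide) (by decide) (by decide) (by decide) (by decide) (by decide) (by decide) rfl rfl rfl rfl (by decide)),
    (kindOK_of _ 4 0 2 1 (by decide) (by decide) (by decide) (by decide) (by decide) (by decide) (by decide) rfl rfl rfl rfl (by decide))⟩⟩⟩,
    ⟨⟨(kindOK_of _ 5 0 1 2 (by decide) (by decide) (by decide) (by decide) (by decide) (by decide) (by decide) rfl rfl rfl rfl (by decide)),
    ⟨(kindOK_of _ 6 0 1 2 (by decide) (by decide) (by decide) (by decide) (by decide) (by decide) (by decide) rfl rfl rfl rfl (by decide)),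
    (kindOK_of _ 6 0 2 1 (by decide) (by decide) (by decide) (by decide) (by decide) (by decide) (by decide) rfl rfl rfl rfl (by decide))⟩⟩,
    ⟨(kindOK_of _ 6 0 2 3 (by decide) (by decide) (by decide) (by decide) (by decide) (by decide) (by decide) rfl rfl rfl rfl (by decide)),
    ⟨(kindOK_of _ 6 2 3 0 (by decide) (by decide) (by decide) (by decide) (by decide) (by decide) (by decide) rfl rfl rfl rfl (by decide)),
    (kindOK_of _ 7 0 1 2 (by decide) (by decide) (by decide) (by decide) (by decide) (by decide) (by decide) rfl rfl rfl rfl (by decide))⟩⟩⟩⟩⟩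

theorem kind_sound {x : Fin 9 → Fin 9 → Fin 9 → Fin 9 → Fin 9 → Fin 9 → Bool} {y : ℕ → Bool}
    {ws : ℕ} {v : ℕ → Fin 9} (hx : ParSys x)
    (hT : Tab y x) (hv : Inj9 v) (hws : ∀ a < 9, byte ws a = Wt (v a)) (K : Kind)
    (hK : KindOK K) (ha : ev y (faceVec ws (rowsXor ws K.C) K.a) = true)
    (hb : ev y (faceVec ws (rowsXor ws K.C) K.b) = true) :
    ev y (faceVec ws (rowsXor ws K.C) K.l) = false := by
  obtain ⟨f1, f2, f3, t, ht, i, hi, j, hj, l, hl, hij, hil, hjl, h0, h1, h2, h3⟩ := hK
  rw [faceVec_rows hT hv hws _ _ (okFans_spec f1), h0, h1] at ha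
  rw [faceVec_rows hT hv hws _ _ (okFans_spec f2), h0, h2] at hb
  rw [faceVec_rows hT hv hws _ _ (okFans_spec f3), h0, h3]
  exact hx.k4 v hv t ht i hi j hj l hl hij hil hjl ha hb

theorem stepD3_sound (y : ℕ → Bool) (hy : y 191 = true) (ctx piv : ℕ) (s : Stack) (a b w : ℕ)
    (hw : ev y a = true → ev y b = true → ev y w = false)
    (h : Inv y ctx ∨ AliveStack y s) : AliveRes y (stepD3 ctx piv s a b w) := by
  show AliveRes y (Bool.rec Res.fail (Bool.rec Res.fail (pushPop s ctx piv w)
    (Nat.beq (red ctx piv b) ONE)) (Nat.beq (red ctx piv a) ONE) : Res)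
  cases ha : Nat.beq (red ctx piv a) ONE with
  | false => trivial
  | true =>
    cases hb : Nat.beq (red ctx piv b) ONE with
    | false => trivial
    | true =>
      apply pushPop_sound y hy
      rcases h with h | h
      · left
        refine ⟨h, hw ?_ ?_⟩
        · rw [← red_sound y ctx piv a h, Nat.eq_of_beq_eq_true ha, ev_ONE y hy]
        · rw [← red_sound y ctx piv b h, Nat.eq_of_beq_eq_true hb, ev_ONE y hy]
      · exact Or.inr h

theorem allOne_sound (y : ℕ → Bool) (hy : y 191 = true) (ctx piv : ℕ) (h : Inv y ctx)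
    (l : List ℕ) (hl : allOne ctx piv l = true) : ∀ w ∈ l, ev y w = true := by
  induction l with
  | nil => intro w hw; cases hw
  | cons a l ih =>
    have hl' : (Bool.rec false (allOne ctx piv l) (Nat.beq (red ctx piv a) ONE) : Bool) = true := hl
    cases ha : Nat.beq (red ctx piv a) ONE with
    | false => rw [ha] at hl'; cases hl'
    | true =>
      rw [ha] at hl'
      intro w hw
      rcases List.mem_cons.mp hw with rfl | hw
      · rw [← red_sound y ctx piv w h, Nat.eq_of_beq_eq_true ha, ev_ONE y hy]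
      · exact ih hl' w hw

theorem eraseNth_spec {α : Type} (d : α) (Q : α → Prop) : ∀ (l : List α) (i : ℕ),
    (∀ a ∈ eraseNth l i, Q a) → Q (nth d l i) → ∀ a ∈ l, Q a
  | [], _, _, _ => by intro a ha; cases ha
  | b :: l, 0, h1, h2 => by
    intro a ha
    rcases List.mem_cons.mp ha with rfl | ha
    · exact h2
    · exact h1 a ha
  | b :: l, n + 1, h1, h2 => by
    intro a ha
    rcases List.mem_cons.mp ha with rfl | ha
    · exact h1 a List.mem_cons_self
    · exact eraseNth_spec d Q l n (fun a ha => h1 a (List.mem_cons_of_mem _ ha)) h2 a ha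

theorem patVecs_eq (ws : ℕ) (P : Pat) :
    patVecs ws P = P.map fun p => slot (rowOf (key ws p.1)) (key ws p.2) := by
  induction P with
  | nil => rfl
  | cons p P ih =>
    show slot (rowOf (key ws p.1)) (key ws p.2) :: patVecs ws P = _
    rw [ih]; rfl

/-- lemma with admissible pattern -/
def LemOK (x : Fin 9 → Fin 9 → Fin 9 → Fin 9 → Fin 9 → Fin 9 → Bool) (P : Pat) : Prop :=
  P.all okPair = true ∧ HoldsLem x P

theorem stepL2_sound {x : Fin 9 → Fin 9 → Fin 9 → Fin 9 → Fin 9 → Fin 9 → Bool} {y : ℕ → Bool}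
    {ws : ℕ} {v : ℕ → Fin 9} (hy : y 191 = true)
    (hT : Tab y x) (hv : Inj9 v) (hws : ∀ a < 9, byte ws a = Wt (v a)) (ctx piv : ℕ) (s : Stack)
    (P : Pat) (i : ℕ) (hP : P ≠ [] → LemOK x P)
    (h : Inv y ctx ∨ AliveStack y s) : AliveRes y (stepL2 ctx piv s (patVecs ws P) i) := by
  show AliveRes y (Bool.rec Res.fail (Bool.rec Res.fail (pushPop s ctx piv (nth 0 (patVecs ws P) i))
    (allOne ctx piv (eraseNth (patVecs ws P) i))) (Nat.blt i (patVecs ws P).length) : Res)
  cases hi : Nat.blt i (patVecs ws P).length with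
  | false => trivial
  | true =>
    cases ha : allOne ctx piv (eraseNth (patVecs ws P) i) with
    | false => trivial
    | true =>
      apply pushPop_sound y hy
      rcases h with h | h
      · left
        refine ⟨h, ?_⟩
        by_contra hcon
        rw [Bool.not_eq_false] at hcon
        have hall := eraseNth_spec 0 (fun w => ev y w = true) (patVecs ws P) i
          (allOne_sound y hy ctx piv h _ ha) hcon
        have hPne : P ≠ [] := by
          rintro rfl
          have : Nat.blt i 0 = true := hi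
          simp [Nat.blt] at this
        obtain ⟨hok, hlem⟩ := hP hPne
        refine hlem v hv ?_
        intro p hp
        rw [← slotX hT hv hws p (List.all_eq_true.mp hok p hp)]
        apply hall
        rw [patVecs_eq]
        exact List.mem_map_of_mem hp
      · exact Or.inr h

theorem nth_mem {α : Type} (Q : α → Prop) (d : α) : ∀ (l : List α) (i : ℕ),
    (∀ a ∈ l, Q a) → nth d l i = d ∨ Q (nth d l i)
  | [], _, _ => Or.inl rfl
  | a :: l, 0, h => Or.inr (h a List.mem_cons_self)
  | a :: l, n + 1, h => nth_mem Q d l n (fun a ha => h a (List.mem_cons_of_mem _ ha))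

theorem stepA1_sound (y : ℕ → Bool) (hy : y 191 = true) (ctx piv : ℕ) (s : Stack) (c w : ℕ)
    (h : Inv y ctx ∨ AliveStack y s) : AliveRes y (stepA1 ctx piv s c w) := by
  show AliveRes y (Bool.rec (pushPop (Stack.cons ctx piv (Nat.xor w ONE) s) ctx piv w)
   (pushPop (Stack.cons ctx piv w s) ctx piv (Nat.xor w ONE))
    (Nat.beq (fld c (nat_lit 2) (nat_lit 2)) (nat_lit 1)) : Res)
  have hx : ev y (Nat.xor w ONE) = !(ev y w) := by
    show ev y (w ^^^ ONE) = _
    rw [ev_xor, ev_ONE y hy, Bool.xor_true]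
  cases Nat.beq (fld c (nat_lit 2) (nat_lit 2)) (nat_lit 1) with
  | false =>
    apply pushPop_sound y hy
    rcases h with h | h
    · cases hw : ev y w with
      | false => exact Or.inl ⟨h, rfl⟩
      | true => exact Or.inr (Or.inl ⟨h, by rw [hx, hw]; rfl⟩)
    · exact Or.inr (Or.inr h)
  | true =>
    apply pushPop_sound y hy
    rcases h with h | h
    · cases hw : ev y w with
      | false => exact Or.inr (Or.inl ⟨h, hw⟩)
      | true => exact Or.inl ⟨h, by rw [hx, hw]; rfl⟩
    · exact Or.inr (Or.inr h)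

theorem step_sound {x : Fin 9 → Fin 9 → Fin 9 → Fin 9 → Fin 9 → Fin 9 → Bool} {y : ℕ → Bool}
    (hx : ParSys x) (hy : y 191 = true) (hT : Tab y x) (pats : List Pat)
    (hp : ∀ P ∈ pats, LemOK x P) (ctx piv : ℕ) (s : Stack) (c ws : ℕ)
    (h : Inv y ctx ∨ AliveStack y s) : AliveRes y (step pats ctx piv s c ws) := by
  show AliveRes y (Bool.rec Res.fail
    (Bool.rec
      (Bool.rec
        (Bool.rec Res.fail
          (stepA1 ctx piv s c (slot (rowOf (key ws (0,1,2))) (key ws (3,4,5))))
          (Nat.beq (Nat.mod c (nat_lit 4)) (nat_lit 2)))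
        (stepL1 pats ctx piv s c ws)
        (Nat.beq (Nat.mod c (nat_lit 4)) (nat_lit 1)))
      (stepD1 ctx piv s ws (kindTree.look (fld c (nat_lit 2) (nat_lit 32))))
      (Nat.beq (Nat.mod c (nat_lit 4)) (nat_lit 0)))
    (okPerm ws) : Res)
  cases hok : okPerm ws with
  | false => trivial
  | true =>
    obtain ⟨v, hv, hws⟩ := okPerm_spec ws hok
    cases Nat.beq (Nat.mod c (nat_lit 4)) (nat_lit 0) with
    | true =>
      have hK := Tr.look_forall KindOK (fld c (nat_lit 2) (nat_lit 32)) kindTree kindTree_ok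
      generalize kindTree.look (fld c (nat_lit 2) (nat_lit 32)) = K at hK
      show AliveRes y (stepD3 ctx piv s (faceVec ws (rowsXor ws K.C) K.a)
        (faceVec ws (rowsXor ws K.C) K.b) (faceVec ws (rowsXor ws K.C) K.l))
      exact stepD3_sound y hy ctx piv s _ _ _ (kind_sound hx hT hv hws K hK) h
    | false =>
      cases Nat.beq (Nat.mod c (nat_lit 4)) (nat_lit 1) with
      | true =>
        refine stepL2_sound hy hT hv hws ctx piv s _ _ ?_ h
        intro hne
        rcases nth_mem (LemOK x) [] pats (fld c (nat_lit 2) (nat_lit 16)) hp with h1 | h1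
        · exact absurd h1 hne
        · exact h1
      | false =>
        cases Nat.beq (Nat.mod c (nat_lit 4)) (nat_lit 2) with
        | true => exact stepA1_sound y hy ctx piv s c _ h
        | false => trivial

theorem run_sound {x : Fin 9 → Fin 9 → Fin 9 → Fin 9 → Fin 9 → Fin 9 → Bool} {y : ℕ → Bool}
    (hx : ParSys x) (hy : y 191 = true) (hT : Tab y x) (pats : List Pat)
    (hp : ∀ P ∈ pats, LemOK x P) (cs : List ℕ) : ∀ r, run pats cs r = true → ¬ AliveRes y r := by
  induction cs with
  | nil =>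
    intro r h hr
    cases r with
    | fail => exact Bool.false_ne_true h
    | done => exact hr
    | st c p s => exact Bool.false_ne_true h
  | cons c cs ih =>
    intro r h hr
    cases r with
    | fail => exact Bool.false_ne_true h
    | done => exact hr
    | st ctx piv s => exact ih _ h (step_sound hx hy hT pats hp ctx piv s c _ hr)

theorem startL_sound (y : ℕ → Bool) (hy : y 191 = true) (l : List ℕ) :
    ∀ r, (∀ w ∈ l, ev y w = false) → AliveRes y r → AliveRes y (startL l r) := by
  induction l with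
  | nil => intro r _ h; exact h
  | cons w l ih =>
    intro r hl h
    cases r with
    | fail => trivial
    | done => exact h
    | st ctx piv s =>
      refine ih _ (fun w hw => hl w (List.mem_cons_of_mem _ hw)) ?_
      apply pushPop_sound y hy
      rcases h with h | h
      · exact Or.inl ⟨h, hl w List.mem_cons_self⟩
      · exact Or.inr h

/-- the identity labelling -/
def idv (a : ℕ) : Fin 9 := Fin.ofNat 9 a

theorem idv_inj : Inj9 idv := by unfold Inj9; decide

theorem WT_spec : ∀ a < 9, byte WT a = Wt (idv a) := by decide +kernel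

theorem initVecs_sound {x : Fin 9 → Fin 9 → Fin 9 → Fin 9 → Fin 9 → Fin 9 → Bool} {y : ℕ → Bool}
    (hy : y 191 = true) (hT : Tab y x) (P : Pat) (hP : P.all okPair = true)
    (h : ∀ p ∈ P, pairX x idv p = true) : ∀ w ∈ initVecs P, ev y w = false := by
  induction P with
  | nil => intro w hw; cases hw
  | cons p P ih =>
    intro w hw
    rcases List.mem_cons.mp hw with rfl | hw
    · show ev y (slot (rowOf (key WT p.1)) (key WT p.2) ^^^ ONE) = false
      rw [ev_xor, ev_ONE y hy, slotX hT idv_inj WT_spec p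
        (List.all_eq_true.mp hP p List.mem_cons_self), h p List.mem_cons_self]
      rfl
    · rw [List.all_cons, Bool.and_eq_true] at hP
      exact ih hP.2 (fun p hp => h p (List.mem_cons_of_mem _ hp)) w hw

theorem refutes_sound {x : Fin 9 → Fin 9 → Fin 9 → Fin 9 → Fin 9 → Fin 9 → Bool} {y : ℕ → Bool}
    (hx : ParSys x) (hy : y 191 = true) (hT : Tab y x) (pats : List Pat)
    (hp : ∀ P ∈ pats, LemOK x P) (P : Pat) (hP : P.all okPair = true) (cs : List ℕ)
    (h : refutes pats P cs = true) : ¬ ∀ p ∈ P, pairX x idv p = true := by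
  intro hall
  refine run_sound hx hy hT pats hp cs _ h ?_
  exact startL_sound y hy _ _ (initVecs_sound hy hT P hP hall) (Or.inl (inv_zero y))

/-- relabelling -/
def relab (x : Fin 9 → Fin 9 → Fin 9 → Fin 9 → Fin 9 → Fin 9 → Bool) (τ : Fin 9 → Fin 9) :
    Fin 9 → Fin 9 → Fin 9 → Fin 9 → Fin 9 → Fin 9 → Bool :=
  fun a b c d e f => x (τ a) (τ b) (τ c) (τ d) (τ e) (τ f)

theorem fanX1_relab (x : Fin 9 → Fin 9 → Fin 9 → Fin 9 → Fin 9 → Fin 9 → Bool) (τ : Fin 9 → Fin 9)
    (v : ℕ → Fin 9) (s : ℕ × ℕ × ℕ) (Q : List (ℕ × ℕ × ℕ)) :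
    fanX1 (relab x τ) v s Q = fanX1 x (fun a => τ (v a)) s Q := by
  induction Q with
  | nil => rfl
  | cons t Q ih => rw [fanX1, fanX1, ih]; rfl

theorem fanX_relab (x : Fin 9 → Fin 9 → Fin 9 → Fin 9 → Fin 9 → Fin 9 → Bool) (τ : Fin 9 → Fin 9)
    (v : ℕ → Fin 9) (Q P : List (ℕ × ℕ × ℕ)) :
    fanX (relab x τ) v Q P = fanX x (fun a => τ (v a)) Q P := by
  induction P with
  | nil => rfl
  | cons t Q ih => rw [fanX, fanX, ih, fanX1_relab]

theorem inj9_comp {τ : Fin 9 → Fin 9} (hτ : Function.Injective τ) {v : ℕ → Fin 9} (hv : Inj9 v) :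
    Inj9 fun a => τ (v a) := fun a ha b hb h => hv a ha b hb (hτ h)

theorem parSys_relab {x : Fin 9 → Fin 9 → Fin 9 → Fin 9 → Fin 9 → Fin 9 → Bool} (hx : ParSys x)
    {τ : Fin 9 → Fin 9} (hτ : Function.Injective τ) : ParSys (relab x τ) where
  rot v hv := by
    have h := hx.rot _ (inj9_comp hτ hv)
    simpa only [relab] using h
  swap v hv := by
    have h := hx.swap _ (inj9_comp hτ hv)
    simpa only [relab] using h
  symm v hv := by
    have h := hx.symm _ (inj9_comp hτ hv)
    simpa only [relab] using h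
  r1 v hv := by
    have h := hx.r1 _ (inj9_comp hτ hv)
    simpa only [relab] using h
  r2 v hv := by
    have h := hx.r2 _ (inj9_comp hτ hv)
    simpa only [relab] using h
  k4 v hv t ht i hi j hj l hl hij hil hjl h1 h2 := by
    unfold faceX at h1 h2 ⊢
    rw [fanX_relab] at h1 h2 ⊢
    exact hx.k4 _ (inj9_comp hτ hv) t ht i hi j hj l hl hij hil hjl h1 h2

theorem holdsLem_relab {x : Fin 9 → Fin 9 → Fin 9 → Fin 9 → Fin 9 → Fin 9 → Bool} {P : Pat}
    (h : HoldsLem x P) {τ : Fin 9 → Fin 9} (hτ : Function.Injective τ) :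
    HoldsLem (relab x τ) P := fun v hv => h _ (inj9_comp hτ hv)

/-- Main soundness theorem: a successful run proves the pattern lemma. -/
theorem lemma_of_refutes (hJT : JobT) (pats : List Pat) (P : Pat)
    (hpo : pats.all (fun P => P.all okPair) = true) (hP : P.all okPair = true) (cs : List ℕ)
    (h : refutes pats P cs = true)
    {x : Fin 9 → Fin 9 → Fin 9 → Fin 9 → Fin 9 → Fin 9 → Bool} (hx : ParSys x)
    (hl : ∀ P ∈ pats, HoldsLem x P) : HoldsLem x P := by
  intro v hv hall
  let τ : Fin 9 → Fin 9 := fun a => v a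
  have hτ : Function.Injective τ := by
    intro a b hab
    exact Fin.ext (hv a a.2 b b.2 hab)
  have hx' := parSys_relab hx hτ
  obtain ⟨y, hy, hT⟩ := hJT _ hx'
  refine refutes_sound hx' hy hT pats ?_ P hP cs h ?_
  · intro Q hQ
    exact ⟨List.all_eq_true.mp hpo Q hQ, holdsLem_relab (hl Q hQ) hτ⟩
  · intro p hp
    have h1 := hall p hp
    have hok := List.all_eq_true.mp hP p hp
    obtain ⟨⟨a, b, c⟩, ⟨d, e, f⟩⟩ := p
    simp only [okPair, decide_eq_true_eq] at hok
    have h2 := hok.2
    have hid : ∀ i < 9, τ (idv i) = v i := by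
      intro i hi
      show v ((idv i : Fin 9) : ℕ) = v i
      congr 1
      exact Nat.mod_eq_of_lt hi
    show x (τ (idv a)) (τ (idv b)) (τ (idv c)) (τ (idv d)) (τ (idv e)) (τ (idv f)) = true
    rw [hid a (h2 a (by simp)), hid b (h2 b (by simp)), hid c (h2 c (by simp)),
      hid d (h2 d (by simp)), hid e (h2 e (by simp)), hid f (h2 f (by simp))]
    exact h1

end Pool.Agent.H23.K9
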